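import Pool.Agent.Q66.FF28

/-!
# A field of infinitely many point masses in the plane without equilibrium points

The negative answer to the question whether the force field of infinitely many point masses
`a k > 0` at points `p k` of `ℝⁿ` without accumulation point, with `∑ a k / |p k| ^ (n - 1) < ∞`,
always vanishes somewhere off the points: there is a configuration in the plane (`n = 2`) whose
field has no zero.
-/

namespace Pool.Agent.Results.MP_3f6bc3_an.NoEquilibrium

open Filter Topology

/-- Infinitely many distinct points of `ℝⁿ`, none equal to `0` and without accumulation point,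
with positive masses `mass k` such that `∑ mass k / ‖point k‖ ^ (n - 1)` converges. -/
structure Config (n : ℕ) where
  point : ℕ → EuclideanSpace ℝ (Fin n)
  mass : ℕ → ℝ
  injective : Function.Injective point
  ne_zero : ∀ k, point k ≠ 0
  no_accumulation : ∀ p : EuclideanSpace ℝ (Fin n), ¬ AccPt p (𝓟 (Set.range point))
  mass_pos : ∀ k, 0 < mass k
  summable : Summable fun k => mass k / ‖point k‖ ^ (n - 1)

/-- The `k`-th term `a_k (x_k - p) / |p - x_k| ^ n` of the force field at `p`. -/
noncomputable def Config.term {n : ℕ} (c : Config n) (p : EuclideanSpace ℝ (Fin n)) (k : ℕ) :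
    EuclideanSpace ℝ (Fin n) :=
  (c.mass k / ‖p - c.point k‖ ^ n) • (c.point k - p)

/-- The force field `F(p) = ∑ a_k (x_k - p) / |p - x_k| ^ n`. -/
noncomputable def Config.force {n : ℕ} (c : Config n) (p : EuclideanSpace ℝ (Fin n)) :
    EuclideanSpace ℝ (Fin n) := ∑' k, c.term p k

open Q66.FF in
/-- the configuration attached to a solution of the phase equations -/
noncomputable def conf {x : ℕ → ℝ} (h : Near x) (hp : Phase x) : Config 2 where
  point := fun i => Complex.orthonormalBasisOneI.repr (pts x i)
  mass := mss x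
  injective := fun i j hij => pts_inj h (Complex.orthonormalBasisOneI.repr.injective hij)
  ne_zero := fun k hk => pts_ne_zero h k (by
    have : Complex.orthonormalBasisOneI.repr (pts x k) = Complex.orthonormalBasisOneI.repr 0 := by
      rw [hk, map_zero]
    exact Complex.orthonormalBasisOneI.repr.injective this)
  no_accumulation := by
    intro p hp
    set F : Set (EuclideanSpace ℝ (Fin 2)) :=
      (fun i => Complex.orthonormalBasisOneI.repr (pts x i)) '' {i : ℕ | ‖pts x i‖ ≤ ‖p‖ + 1} with hF
    have hfin : F.Finite := (finite_ball h (‖p‖+1)).image _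
    have hfin' : (F \ {p}).Finite := hfin.subset Set.sdiff_subset
    have hU : Metric.ball p 1 \ (F \ {p}) ∈ 𝓝 p := by
      apply (Metric.isOpen_ball.sdiff hfin'.isClosed).mem_nhds
      exact ⟨Metric.mem_ball_self one_pos, fun hc => hc.2 rfl⟩
    rw [accPt_iff_nhds] at hp
    obtain ⟨y, ⟨hy1, hy2⟩, hy3⟩ := hp _ hU
    obtain ⟨i, rfl⟩ := hy2
    apply hy1.2
    refine ⟨⟨i, ?_, rfl⟩, hy3⟩
    have h1 := Metric.mem_ball.1 hy1.1
    rw [dist_eq_norm] at h1
    have h2 : ‖Complex.orthonormalBasisOneI.repr (pts x i)‖ ≤ ‖p‖ + 1 := by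
      have := norm_sub_norm_le (Complex.orthonormalBasisOneI.repr (pts x i)) p
      simp only at h1
      linarith
    rwa [LinearIsometryEquiv.norm_map] at h2
  mass_pos := mss_pos h
  summable := by
    have := summable_cond h hp
    refine this.congr (fun k => ?_)
    rw [LinearIsometryEquiv.norm_map]
    norm_num

/-- There is a configuration of infinitely many point masses in the plane satisfying all the
hypotheses whose force field converges at every point off the configuration and vanishes at none
of them; in particular, it is not true that for every `n ≥ 2` every configuration in `ℝⁿ` has an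
equilibrium point. -/
theorem result :
    (∃ c : Config 2, ∀ p : EuclideanSpace ℝ (Fin 2), p ∉ Set.range c.point →
      Summable (c.term p) ∧ c.force p ≠ 0) ∧
    ¬ ∀ n : ℕ, 2 ≤ n → ∀ c : Config n, ∃ p : EuclideanSpace ℝ (Fin n),
      p ∉ Set.range c.point ∧ c.force p = 0 := by
  have main : ∃ c : Config 2, ∀ p : EuclideanSpace ℝ (Fin 2), p ∉ Set.range c.point →
      Summable (c.term p) ∧ c.force p ≠ 0 := by
    obtain ⟨x, h, hp⟩ := Q66.FF.exists_seq
    refine ⟨conf h hp, fun p hpr => ?_⟩
    set L := Complex.orthonormalBasisOneI.repr with hL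
    set w : ℂ := L.symm p with hw
    have hpw : p = L w := by rw [hw, LinearIsometryEquiv.apply_symm_apply]
    have hwr : w ∉ Set.range (Q66.FF.pts x) := by
      rintro ⟨i, hi⟩
      apply hpr
      exact ⟨i, by rw [hpw, ← hi]; rfl⟩
    obtain ⟨S, hS0, hS⟩ := Q66.FF.hasSum_field h hp hwr
    have h1 : HasSum (fun i => -(starRingEnd ℂ) ((Q66.FF.mss x i : ℂ) / (w - Q66.FF.pts x i))) (-(starRingEnd ℂ) S) := by
      apply HasSum.neg
      exact (Complex.hasSum_conj').2 (by simpa using hS)
    have h2 : HasSum (fun i => L (-(starRingEnd ℂ) ((Q66.FF.mss x i : ℂ) / (w - Q66.FF.pts x i)))) (L (-(starRingEnd ℂ) S)) :=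
      h1.mapL (L.toContinuousLinearEquiv : ℂ →L[ℝ] EuclideanSpace ℝ (Fin 2))
    have h3 : (conf h hp).term p = fun i => L (-(starRingEnd ℂ) ((Q66.FF.mss x i : ℂ) / (w - Q66.FF.pts x i))) := by
      funext i
      have hne : w - Q66.FF.pts x i ≠ 0 := by
        intro hc
        exact hwr ⟨i, (sub_eq_zero.1 hc).symm⟩
      have hnn : (0:ℝ) < ‖w - Q66.FF.pts x i‖ := norm_pos_iff.2 hne
      show (Q66.FF.mss x i / ‖p - L (Q66.FF.pts x i)‖^2) • (L (Q66.FF.pts x i) - p) = _
      rw [hpw, ← map_sub, ← map_sub, LinearIsometryEquiv.norm_map, ← map_smul]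
      congr 1
      rw [map_div₀, Complex.conj_ofReal, Complex.real_smul]
      have h4 : (starRingEnd ℂ) (w - Q66.FF.pts x i) ≠ 0 := by
        rw [← norm_pos_iff, Complex.norm_conj]; exact hnn
      have h5 : ((‖w - Q66.FF.pts x i‖^2 : ℝ) : ℂ) = (w - Q66.FF.pts x i) * (starRingEnd ℂ) (w - Q66.FF.pts x i) := by
        rw [Complex.mul_conj, Complex.normSq_eq_norm_sq]
      rw [Complex.ofReal_div, h5]
      rw [show Q66.FF.pts x i - w = -(w - Q66.FF.pts x i) by ring]
      field_simp
    refine ⟨by rw [h3]; exact h2.summable, ?_⟩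
    unfold Config.force
    rw [h3, h2.tsum_eq]
    intro h0
    have h6 : -(starRingEnd ℂ) S = 0 := by
      have : L (-(starRingEnd ℂ) S) = L 0 := by rw [h0, map_zero]
      exact L.injective this
    rw [neg_eq_zero, map_eq_zero] at h6
    exact hS0 h6
  refine ⟨main, fun hall => ?_⟩
  obtain ⟨c, hc⟩ := main
  obtain ⟨p, hp1, hp2⟩ := hall 2 le_rfl c
  exact (hc p hp1).2 hp2

end Pool.Agent.Results.MP_3f6bc3_an.NoEquilibrium
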